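import Pool.Agent.H113Z.Dist.Defs

/-! Gluing disjointly supported permutations of the line, and the Eilenberg swindle. -/

namespace Pool.Agent.H113Z.Dist.H88P
open Filter Topology Set

theorem supp_mono {f : Pm} {a b a' b' : ℝ} (h : Supp f a b) (ha : a' ≤ a) (hb : b ≤ b') :
    Supp f a' b' := fun x hx => h x (hx.imp (fun h => h.trans ha) (fun h => hb.trans h))

theorem supp_fix {f : Pm} {a b : ℝ} (h : Supp f a b) {x : ℝ} (hx : x ∉ Ioo a b) : f x = x := by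
  apply h
  by_contra hc
  push Not at hc
  exact hx ⟨hc.1, hc.2⟩

theorem supp_maps {f : Pm} {a b : ℝ} (h : Supp f a b) {x : ℝ} (hx : x ∈ Ioo a b) :
    f x ∈ Ioo a b := by
  by_contra hc
  have h1 := supp_fix h hc
  have h2 := f.injective h1
  rw [h2] at hc
  exact hc hx

theorem supp_inv {f : Pm} {a b : ℝ} (h : Supp f a b) : Supp f⁻¹ a b := by
  intro x hx
  rw [Equiv.Perm.inv_eq_iff_eq]
  exact (h x hx).symm

theorem supp_mul {f g : Pm} {a b : ℝ} (hf : Supp f a b) (hg : Supp g a b) :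
    Supp (f * g) a b := by
  intro x hx
  rw [Equiv.Perm.mul_apply, hg x hx, hf x hx]

/-- `F` is glued from the `f j` on the intervals `(a j, b j)` -/
def IsGlue (a b : ℕ → ℝ) (f : ℕ → Pm) (F : ℝ → ℝ) : Prop :=
  (∀ j, ∀ x ∈ Ioo (a j) (b j), F x = f j x) ∧ ∀ x, (∀ j, x ∉ Ioo (a j) (b j)) → F x = x

def Disj (a b : ℕ → ℝ) : Prop :=
  ∀ i j x, x ∈ Ioo (a i) (b i) → x ∈ Ioo (a j) (b j) → i = j

theorem disj_of_chain {a b : ℕ → ℝ} (h1 : ∀ j, a j ≤ b j) (h2 : ∀ j, b j ≤ a (j + 1)) :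
    Disj a b := by
  have hm : Monotone a := monotone_nat_of_le_succ fun j => (h1 j).trans (h2 j)
  intro i j x hi hj
  rcases lt_trichotomy i j with h | h | h
  · have := hm (show i + 1 ≤ j from h)
    linarith [hi.2, hj.1, h2 i]
  · exact h
  · have := hm (show j + 1 ≤ i from h)
    linarith [hj.2, hi.1, h2 j]

theorem exists_glue_fun {a b : ℕ → ℝ} (hd : Disj a b) (f : ℕ → Pm) :
    ∃ F : ℝ → ℝ, IsGlue a b f F := by
  classical
  refine ⟨fun x => if h : ∃ j, x ∈ Ioo (a j) (b j) then f h.choose x else x, ?_, ?_⟩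
  · intro j x hx
    have h : ∃ j, x ∈ Ioo (a j) (b j) := ⟨j, hx⟩
    simp only [dif_pos h]
    rw [hd _ _ x h.choose_spec hx]
  · intro x hx
    have h : ¬ ∃ j, x ∈ Ioo (a j) (b j) := fun ⟨j, hj⟩ => hx j hj
    simp only [dif_neg h]

theorem IsGlue.comp {a b : ℕ → ℝ} {f g : ℕ → Pm} {F G : ℝ → ℝ}
    (hg : ∀ j, Supp (g j) (a j) (b j)) (hF : IsGlue a b f F) (hG : IsGlue a b g G) :
    IsGlue a b (fun j => f j * g j) (fun x => F (G x)) := by
  refine ⟨fun j x hx => ?_, fun x hx => ?_⟩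
  · simp only [Equiv.Perm.mul_apply]
    rw [hG.1 j x hx, hF.1 j _ (supp_maps (hg j) hx)]
  · simp only
    rw [hG.2 x hx, hF.2 x hx]

theorem IsGlue.eq_id {a b : ℕ → ℝ} {f : ℕ → Pm} {F : ℝ → ℝ} (hF : IsGlue a b f F)
    (hf : ∀ j, f j = 1) (x : ℝ) : F x = x := by
  by_cases h : ∃ j, x ∈ Ioo (a j) (b j)
  · obtain ⟨j, hj⟩ := h
    rw [hF.1 j x hj, hf j]; rfl
  · exact hF.2 x fun j hj => h ⟨j, hj⟩

theorem exists_glue {a b : ℕ → ℝ} (hd : Disj a b) {f : ℕ → Pm}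
    (hf : ∀ j, Supp (f j) (a j) (b j)) : ∃ F : Pm, IsGlue a b f F := by
  obtain ⟨F, hF⟩ := exists_glue_fun hd f
  obtain ⟨G, hG⟩ := exists_glue_fun hd (fun j => (f j)⁻¹)
  refine ⟨⟨F, G, fun x => ?_, fun x => ?_⟩, hF⟩
  · exact (IsGlue.comp hf hG hF).eq_id (fun j => by simp) x
  · exact (IsGlue.comp (fun j => supp_inv (hf j)) hF hG).eq_id (fun j => by simp) x

theorem IsGlue.inv {a b : ℕ → ℝ} {f : ℕ → Pm} {F : Pm}
    (hf : ∀ j, Supp (f j) (a j) (b j)) (hF : IsGlue a b f F) :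
    IsGlue a b (fun j => (f j)⁻¹) (⇑F⁻¹) := by
  refine ⟨fun j x hx => ?_, fun x hx => ?_⟩
  · rw [Equiv.Perm.inv_eq_iff_eq, hF.1 j _ (supp_maps (supp_inv (hf j)) hx)]
    simp
  · rw [Equiv.Perm.inv_eq_iff_eq, hF.2 x hx]

theorem IsGlue.cm {a b : ℕ → ℝ} {p q : ℕ → Pm} {P Q : Pm}
    (hp : ∀ j, Supp (p j) (a j) (b j)) (hq : ∀ j, Supp (q j) (a j) (b j))
    (hP : IsGlue a b p P) (hQ : IsGlue a b q Q) :
    IsGlue a b (fun j => Dist.cm (p j) (q j)) (⇑(Dist.cm P Q)) := by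
  have h1 := IsGlue.comp hq hP hQ
  have h2 := IsGlue.comp (fun j => supp_inv (hp j)) h1 (hP.inv hp)
  have h3 := IsGlue.comp (fun j => supp_inv (hq j)) h2 (hQ.inv hq)
  exact h3

/-- a bound on a function vanishing outside `(lo, hi)` from a bound on its derivative -/
theorem bound_of_deriv {g : ℝ → ℝ} (hg : Differentiable ℝ g) {lo hi m : ℝ} (hlh : lo ≤ hi)
    (h0 : ∀ x, x < lo ∨ hi < x → g x = 0) (hm : ∀ x, |deriv g x| ≤ m) (x : ℝ) :
    |g x| ≤ m * (hi - lo + 1) := by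
  have hm0 : 0 ≤ m := (abs_nonneg _).trans (hm 0)
  by_cases hx : x < lo ∨ hi < x
  · rw [h0 x hx, abs_zero]
    have : 0 ≤ hi - lo + 1 := by linarith
    positivity
  push Not at hx
  have h1 := Convex.norm_image_sub_le_of_norm_deriv_le (𝕜 := ℝ) (f := g) (s := univ) (C := m)
    (x := lo - 1) (y := x) (fun y _ => hg y) (fun y _ => hm y) convex_univ (mem_univ _)
    (mem_univ _)
  rw [h0 (lo - 1) (Or.inl (by linarith)), sub_zero, Real.norm_eq_abs, Real.norm_eq_abs,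
    abs_of_nonneg (by linarith : 0 ≤ x - (lo - 1))] at h1
  refine h1.trans (mul_le_mul_of_nonneg_left (by linarith) hm0)

theorem bounds_of_D2 {g : ℝ → ℝ} (hg : ContDiff ℝ 2 g) {lo hi m : ℝ} (hlh : lo ≤ hi)
    (h0 : ∀ x, x < lo ∨ hi < x → g x = 0) (hm : ∀ x, |iteratedDeriv 2 g x| ≤ m)
    (k : ℕ) (hk : k ≤ 2) (x : ℝ) :
    |iteratedDeriv k g x| ≤ m * (hi - lo + 1) ^ (2 - k) := by
  have hd : Differentiable ℝ g := hg.differentiable (by norm_num)
  have hd2 : Differentiable ℝ (deriv g) := by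
    have : ContDiff ℝ 1 (deriv g) := by
      have h := (contDiff_succ_iff_deriv (𝕜 := ℝ) (n := 1) (f := g)).1 (by exact_mod_cast hg)
      exact h.2.2
    exact this.differentiable (by norm_num)
  have h2 : iteratedDeriv 2 g = deriv (deriv g) := by
    rw [iteratedDeriv_succ, iteratedDeriv_one]
  have h01 : ∀ x, x < lo ∨ hi < x → deriv g x = 0 := by
    intro y hy
    have : g =ᶠ[𝓝 y] fun _ => 0 := by
      rcases hy with hy | hy
      · filter_upwards [Iio_mem_nhds hy] with z hz using h0 z (Or.inl hz)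
      · filter_upwards [Ioi_mem_nhds hy] with z hz using h0 z (Or.inr hz)
    rw [this.deriv_eq]; simp
  have b1 : ∀ x, |deriv g x| ≤ m * (hi - lo + 1) :=
    bound_of_deriv hd2 hlh h01 (fun y => h2 ▸ hm y)
  have b0 := bound_of_deriv hd hlh h0 b1
  interval_cases k
  · simpa [pow_two, mul_assoc] using b0 x
  · simpa using b1 x
  · simpa using hm x

theorem IsGlue.reg {a b : ℕ → ℝ} (hd : Disj a b) {f : ℕ → Pm} {F : Pm} {lo hi M : ℝ}
    (hlh : lo ≤ hi) (hlo : ∀ j, lo ≤ a j) (hhi : ∀ j, b j ≤ hi)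
    (hf : ∀ j, Supp (f j) (a j) (b j)) (hg : ∀ j, Good (f j))
    (hM : ∀ j x, |D 2 (f j) x| ≤ M / 2 / 2 ^ j) (hF : IsGlue a b f F) :
    G2 F ∧ Supp F lo hi ∧ ∀ x, |D 2 F x| ≤ M := by
  have hS : Supp F lo hi := by
    intro x hx
    apply hF.2
    intro j hj
    rcases hx with hx | hx
    · linarith [hj.1, hlo j]
    · linarith [hj.2, hhi j]
  set g : ℕ → ℝ → ℝ := fun j x => f j x - x with hgdef
  have hf2 : ∀ j, ContDiff ℝ 2 (f j) := fun j => (hg j).1.of_le (by norm_num)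
  have hg2 : ∀ j, ContDiff ℝ 2 (g j) := fun j => (hf2 j).sub contDiff_id
  have hD : ∀ j x, iteratedDeriv 2 (g j) x = iteratedDeriv 2 (f j) x := by
    intro j x
    have := iteratedDeriv_fun_sub (n := 2) (f := f j) (g := fun x : ℝ => x) (x := x)
      (hf2 j).contDiffAt contDiff_id.contDiffAt
    simp only [hgdef]
    rw [this, iteratedDeriv_fun_id]
    simp
  have hFe : (F : ℝ → ℝ) = fun x => x + ∑' j, g j x := by
    funext x
    by_cases h : ∃ j, x ∈ Ioo (a j) (b j)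
    · obtain ⟨j, hj⟩ := h
      rw [tsum_eq_single j, hF.1 j x hj]
      · simp [hgdef]
      · intro i hi
        simp only [hgdef]
        rw [supp_fix (hf i) (fun hc => hi (hd _ _ x hc hj)), sub_self]
    · have h' : ∀ j, x ∉ Ioo (a j) (b j) := fun j hj => h ⟨j, hj⟩
      have : ∀ j, g j x = 0 := fun j => by
        simp only [hgdef]; rw [supp_fix (hf j) (h' j), sub_self]
      simp [this, hF.2 x h']
  have hv : ∀ k : ℕ, (k : ℕ∞) ≤ 2 →
      Summable (fun j : ℕ => M / 2 / 2 ^ j * (hi - lo + 1) ^ (2 - k)) :=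
    fun k _ => (hasSum_geometric_two' M).summable.mul_right _
  have hb : ∀ (k : ℕ) (j : ℕ) (x : ℝ), (k : ℕ∞) ≤ 2 →
      ‖iteratedFDeriv ℝ k (g j) x‖ ≤ M / 2 / 2 ^ j * (hi - lo + 1) ^ (2 - k) := by
    intro k j x hk
    rw [norm_iteratedFDeriv_eq_norm_iteratedDeriv, Real.norm_eq_abs]
    refine bounds_of_D2 (hg2 j) hlh ?_ (fun y => by rw [hD]; exact hM j y) k
      (by exact_mod_cast hk) x
    intro y hy
    simp only [hgdef]
    rw [supp_mono (hf j) (hlo j) (hhi j) y (hy.imp le_of_lt le_of_lt), sub_self]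
  have hsum : ContDiff ℝ 2 (fun x => ∑' j, g j x) := by
    have := contDiff_tsum (𝕜 := ℝ) (N := 2) (f := g) (fun j => by exact_mod_cast hg2 j) hv hb
    exact_mod_cast this
  have hC : ContDiff ℝ 2 (F : ℝ → ℝ) := by
    rw [hFe]; exact contDiff_id.add hsum
  refine ⟨⟨hC, ?_⟩, hS, fun x => ?_⟩
  · rcases hC.continuous.strictMono_of_inj F.injective with h | h
    · exact h
    · have := h (show lo - 1 < lo by linarith)
      rw [hS lo (Or.inl le_rfl), hS (lo - 1) (Or.inl (by linarith))] at this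
      linarith
  · have e1 : D 2 F x = iteratedDeriv 2 (fun x => ∑' j, g j x) x := by
      have := iteratedDeriv_fun_add (n := 2) (f := fun x : ℝ => x) (g := fun x => ∑' j, g j x)
        (x := x) contDiff_id.contDiffAt hsum.contDiffAt
      simp only [D]
      rw [hFe, this, iteratedDeriv_fun_id]
      simp
    rw [e1, ← Real.norm_eq_abs, ← norm_iteratedFDeriv_eq_norm_iteratedDeriv,
      iteratedFDeriv_tsum_apply (𝕜 := ℝ) (N := 2) (f := g) (fun j => by exact_mod_cast hg2 j) hv hb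
        (by norm_num)]
    refine tsum_of_norm_bounded (hasSum_geometric_two' M) fun j => ?_
    simpa using hb 2 j x (by norm_num)

/-- a glued product of pairs -/
theorem pair {U : ℕ → Pm} {c d a b : ℕ → ℝ} (hd : Disj c d) (hU : ∀ j, Supp (U j) (c j) (d j))
    (p : ℕ → ℕ) (hab : ∀ j, a j ≤ c (p j) ∧ d (p j) ≤ b j ∧ a j ≤ c (p j + 1) ∧ d (p j + 1) ≤ b j)
    {A : ℝ → ℝ} (hA : IsGlue a b (fun j => U (p j) * U (p j + 1)) A) :
    (∀ j k, k = p j ∨ k = p j + 1 → ∀ x ∈ Ioo (c k) (d k), A x = U k x) ∧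
    ∀ x, (∀ j, x ∉ Ioo (c (p j)) (d (p j)) ∧ x ∉ Ioo (c (p j + 1)) (d (p j + 1))) → A x = x := by
  refine ⟨fun j k hk x hx => ?_, fun x hx => ?_⟩
  · rcases hk with rfl | rfl
    · rw [hA.1 j x ⟨(hab j).1.trans_lt hx.1, hx.2.trans_le (hab j).2.1⟩, Equiv.Perm.mul_apply,
        supp_fix (hU (p j + 1)) (fun hc => absurd (hd _ _ x hx hc) (by omega))]
    · rw [hA.1 j x ⟨(hab j).2.2.1.trans_lt hx.1, hx.2.trans_le (hab j).2.2.2⟩,
        Equiv.Perm.mul_apply,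
        supp_fix (hU (p j)) (fun hc => absurd (hd _ _ _ (supp_maps (hU _) hx) hc) (by omega))]
  · by_cases h : ∃ j, x ∈ Ioo (a j) (b j)
    · obtain ⟨j, hj⟩ := h
      rw [hA.1 j x hj, Equiv.Perm.mul_apply, supp_fix (hU _) (hx j).2, supp_fix (hU _) (hx j).1]
    · exact hA.2 x fun j hj => h ⟨j, hj⟩

theorem swindle (U P Q : ℕ → Pm) (c d a b : ℕ → ℝ) (lo hi M : ℝ)
    (hU : ∀ j, Supp (U j) (c j) (d j)) (hcd : ∀ j, c j ≤ d j) (hdc : ∀ j, d j ≤ c (j + 1))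
    (hP : ∀ j, Good (P j) ∧ Supp (P j) (a j) (b j) ∧ ∀ x, |D 2 (P j) x| ≤ M / 2 / 2 ^ j)
    (hQ : ∀ j, Good (Q j) ∧ Supp (Q j) (a j) (b j) ∧ ∀ x, |D 2 (Q j) x| ≤ M / 2 / 2 ^ j)
    (hac : ∀ j, a j ≤ c j) (hdb : ∀ j, d (j + 1) ≤ b j) (hba : ∀ j, b j ≤ a (j + 2))
    (hlo : ∀ j, lo ≤ a j) (hhi : ∀ j, b j ≤ hi)
    (heq : ∀ j, U j * U (j + 1) = cm (P j) (Q j)) :
    ∃ P1 Q1 P2 Q2 : Pm, U 0 = cm P1 Q1 * cm P2 Q2 ∧
      ∀ f ∈ [P1, Q1, P2, Q2], G2 f ∧ Supp f lo hi ∧ ∀ x, |D 2 f x| ≤ M := by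
  have hdis : Disj c d := disj_of_chain hcd hdc
  have hab : ∀ j, a j ≤ b j := fun j => by linarith [hac j, hcd j, hdc j, hcd (j + 1), hdb j]
  have hM : 0 ≤ M := by
    have := (abs_nonneg _).trans ((hP 0).2.2 0)
    simp at this; linarith
  have hlh : lo ≤ hi := (hlo 0).trans ((hab 0).trans (hhi 0))
  have key : ∀ e : ℕ, ∃ P1 Q1 : Pm,
      (G2 P1 ∧ Supp P1 lo hi ∧ ∀ x, |D 2 P1 x| ≤ M) ∧
      (G2 Q1 ∧ Supp Q1 lo hi ∧ ∀ x, |D 2 Q1 x| ≤ M) ∧
      (∀ k, e ≤ k → ∀ x ∈ Ioo (c k) (d k), cm P1 Q1 x = U k x) ∧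
      ∀ x, (∀ k, e ≤ k → x ∉ Ioo (c k) (d k)) → cm P1 Q1 x = x := by
    intro e
    have hd' : Disj (fun j => a (2 * j + e)) (fun j => b (2 * j + e)) :=
      disj_of_chain (fun j => hab _) fun j => by
        have := hba (2 * j + e)
        rwa [show 2 * j + e + 2 = 2 * (j + 1) + e by ring] at this
    have hp : ∀ j, Supp (P (2 * j + e)) (a (2 * j + e)) (b (2 * j + e)) := fun j => (hP _).2.1
    have hq : ∀ j, Supp (Q (2 * j + e)) (a (2 * j + e)) (b (2 * j + e)) := fun j => (hQ _).2.1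
    obtain ⟨P1, hP1⟩ := exists_glue hd' hp
    obtain ⟨Q1, hQ1⟩ := exists_glue hd' hq
    have hle : ∀ j : ℕ, M / 2 / 2 ^ (2 * j + e) ≤ M / 2 / 2 ^ j := fun j =>
      div_le_div_of_nonneg_left (by positivity) (by positivity)
        (pow_le_pow_right₀ (by norm_num) (by omega))
    refine ⟨P1, Q1, IsGlue.reg hd' hlh (fun j => hlo _) (fun j => hhi _) hp (fun j => (hP _).1)
      (fun j x => ((hP _).2.2 x).trans (hle j)) hP1,
      IsGlue.reg hd' hlh (fun j => hlo _) (fun j => hhi _) hq (fun j => (hQ _).1)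
      (fun j x => ((hQ _).2.2 x).trans (hle j)) hQ1, ?_⟩
    have hA := IsGlue.cm hp hq hP1 hQ1
    simp only [← heq] at hA
    have := pair hdis hU (fun j => 2 * j + e) (a := fun j => a (2 * j + e))
      (b := fun j => b (2 * j + e)) (fun j => ⟨hac _, by
        linarith [hdc (2 * j + e), hcd (2 * j + e + 1), hdb (2 * j + e)], by
        linarith [hdc (2 * j + e), hcd (2 * j + e), hac (2 * j + e)], hdb _⟩) hA
    refine ⟨fun k hk => this.1 ((k - e) / 2) k (by omega), fun x hx => this.2 x fun j =>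
      ⟨hx _ (by omega), hx _ (by omega)⟩⟩
  obtain ⟨P1, Q1, h1, h2, h3, h4⟩ := key 0
  obtain ⟨P2, Q2, h5, h6, h7, h8⟩ := key 1
  refine ⟨P1, Q1, Q2, P2, ?_, ?_⟩
  · have e : cm Q2 P2 = (cm P2 Q2)⁻¹ := by simp [cm, mul_assoc]
    rw [e, eq_mul_inv_iff_mul_eq]
    ext x
    rw [Equiv.Perm.mul_apply]
    by_cases h : ∃ k, x ∈ Ioo (c k) (d k)
    · obtain ⟨k, hk⟩ := h
      rw [h3 k (Nat.zero_le _) x hk]
      rcases Nat.eq_zero_or_pos k with rfl | hk0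
      · rw [h8 x fun k' hk' hc => absurd (hdis _ _ x hk hc) (by omega)]
      · rw [h7 k hk0 x hk,
          supp_fix (hU 0) fun hc => absurd (hdis _ _ _ (supp_maps (hU k) hk) hc) (by omega)]
    · rw [h8 x fun k _ hc => h ⟨k, hc⟩, h4 x fun k _ hc => h ⟨k, hc⟩,
        supp_fix (hU 0) fun hc => h ⟨0, hc⟩]
  · intro f hf
    simp only [List.mem_cons, List.not_mem_nil, or_false] at hf
    rcases hf with rfl | rfl | rfl | rfl <;> assumption

theorem exists_chain {X : Type} (Inv : ℕ → X → Prop) (R : ℕ → X → X → Prop) (x0 : X)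
    (h0 : Inv 0 x0) (hstep : ∀ n x, Inv n x → ∃ y, Inv (n + 1) y ∧ R n x y) :
    ∃ s : ℕ → X, s 0 = x0 ∧ ∀ n, Inv n (s n) ∧ R n (s n) (s (n + 1)) := by
  choose nx hnx using hstep
  let t : (n : ℕ) → {x // Inv n x} := fun n =>
    Nat.rec (motive := fun n => {x // Inv n x}) ⟨x0, h0⟩
      (fun n y => ⟨nx n y.1 y.2, (hnx n y.1 y.2).1⟩) n
  exact ⟨fun n => (t n).1, rfl, fun n => ⟨(t n).2, (hnx n (t n).1 (t n).2).2⟩⟩

end Pool.Agent.H113Z.Dist.H88P
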