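import Pool.Agent.H88Z.Perf.Glue

/-! `StepStmt → PerfStmt` by an Eilenberg swindle. -/

namespace Pool.Agent.H113Z.Dist
open Filter Topology Set

namespace H88P

theorem bd_mono {f : ℝ → ℝ} {x s η η' : ℝ} (h : Bd f x s η) (hs : 0 < s) (hη : η ≤ η') :
    Bd f x s η' :=
  ⟨h.1.trans hη, h.2.1.trans (by gcongr), h.2.2.1.trans (by gcongr),
    h.2.2.2.trans (by gcongr)⟩

/-- the body of `StepStmt` -/
def Step (K : ℝ) : Prop :=
  ∀ (u : Pm) (α β s η a τ : ℝ) (l : ℕ) (M0 M1 r : ℝ) (T : Finset ℝ) (γ ℓ : ℝ),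
    Hyp K u α β s η a τ l M0 M1 r T → β + 10 * τ ≤ γ → K * τ ≤ ℓ →
    ∃ P Q v : Pm, Good P ∧ Good Q ∧ Good v ∧
      Supp P (α - 2 * τ - ℓ) (γ + 6 * τ + ℓ) ∧ Supp Q (α - 2 * τ - ℓ) (γ + 6 * τ + ℓ) ∧
      Supp v (γ - τ) (γ + 3 * τ) ∧ u * v = cm P Q ∧
      ∀ x, Bd v x τ (K * l * η * (τ / s) ^ 3) ∧ |v x - x| ≤ K * l * η * (τ / s) ^ 3 * τ ∧
        |D 2 P x| ≤ K * (Om τ l M0 M1 r T + l * η * τ ^ 2 / s ^ 3 + τ / ℓ ^ 2) ∧
        |D 2 Q x| ≤ K * (τ / ℓ ^ 2)

def Inv (v : Pm) (g t e : ℝ) : Prop :=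
  Good v ∧ Supp v (g - t) (g + 3 * t) ∧ ∀ x, Bd v x t e ∧ |v x - x| ≤ e * t

def Rel (v w : Pm) (a b m : ℝ) : Prop :=
  ∃ P Q : Pm, (Good P ∧ Supp P a b ∧ ∀ x, |D 2 P x| ≤ m) ∧
    (Good Q ∧ Supp Q a b ∧ ∀ x, |D 2 Q x| ≤ m) ∧ v * w = cm P Q

theorem step1 {K : ℝ} (hK : 60 ≤ K) (hS : Step K) {B : ℕ} (hB : 16 * K ≤ B) {v : Pm}
    {g t e h : ℝ} (ht : 0 < t) (he : 0 < e) (hth : 60 * t ≤ h)
    (h1 : K * (4 * B + 4) * e ≤ 1) (h2 : 4 * (4 * B + 4) * B * e ≤ 1) (hv : Inv v g t e) :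
    ∃ w : Pm, Inv w (g + h / 2) (t / B) (e / (2 * B)) ∧
      Rel v w (g - h / 4) (g + h / 2 + h / 8) (K * (2 * (4 * B + 4) * (e / t) + t / h ^ 2)) := by
  have hB' : (960 : ℝ) ≤ B := by linarith
  have hB0 : (0 : ℝ) < B := by linarith
  have hh : 0 < h := by linarith
  have htB : t / B ≤ t := div_le_self ht.le (by linarith)
  have htB0 : 0 < t / B := by positivity
  have htB2 : t / B ≤ t / 960 := by gcongr
  have hl : (((4 * B + 4 : ℕ) : ℝ)) = 4 * B + 4 := by push_cast; ring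
  have hyp : Hyp K v (g - t) (g + 3 * t) t e (e * t) (t / B) (4 * B + 4) (e / t) 0 0 ∅ := by
    refine ⟨hv.1, hv.2.1, by linarith, htB0, htB, he, fun x => (hv.2.2 x).1,
      fun x => (hv.2.2 x).2, ?_, by rw [hl]; exact h1, ?_, by positivity, le_rfl, le_rfl,
      fun x => by simpa using (hv.2.2 x).1.2.1, fun x _ => (hv.2.2 x).1.2.1⟩
    · rw [hl]
      have : (g + 3 * t - (g - t)) / (t / B) = 4 * B := by field_simp; ring
      rw [this]
    · rw [hl, le_div_iff₀ hB0]
      nlinarith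
  obtain ⟨P, Q, w, hP, hQ, hw, sP, sQ, sw, heq, hb⟩ :=
    hS v _ _ _ _ _ _ _ _ _ _ _ (g + h / 2) (h / 16) hyp (by linarith) (by
      have : K * (t / B) ≤ t / 16 := by
        rw [← mul_div_assoc, div_le_div_iff₀ hB0 (by norm_num)]
        nlinarith
      linarith)
  rw [hl] at hb
  have e1 : K * (4 * B + 4) * e * (t / B / t) ^ 3 ≤ e / (2 * B) := by
    have : t / B / t = 1 / B := by field_simp
    rw [this, le_div_iff₀ (by positivity)]
    have h3 : K * (4 * B + 4) * e * (1 / (B : ℝ)) ^ 3 * (2 * B)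
        = e * (2 * K * (4 * B + 4) / B ^ 2) := by field_simp
    rw [h3]
    refine mul_le_of_le_one_right he.le ?_
    rw [div_le_one (by positivity)]
    nlinarith
  have e2 : t / B / (h / 16) ^ 2 ≤ t / h ^ 2 := by
    have : t / B / (h / 16) ^ 2 = t / h ^ 2 * (256 / B) := by field_simp; ring
    rw [this]
    refine mul_le_of_le_one_right (by positivity) ?_
    rw [div_le_one hB0]; linarith
  have e3 : (4 * B + 4) * e * (t / B) ^ 2 / t ^ 3 ≤ (4 * B + 4) * (e / t) := by
    have : (4 * B + 4) * e * (t / B) ^ 2 / t ^ 3 = (4 * B + 4) * (e / t) * (1 / B ^ 2) := by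
      field_simp
    rw [this]
    refine mul_le_of_le_one_right (by positivity) ?_
    rw [div_le_one (by positivity)]; nlinarith
  have e4 : Om (t / B) (4 * B + 4) (e / t) 0 0 ∅ = (4 * B + 4) * (e / t) := by
    simp only [Om, hl]; simp
  have hK0 : 0 ≤ K := by linarith
  refine ⟨w, ⟨hw, sw, fun x => ⟨bd_mono (hb x).1 htB0 e1, (hb x).2.1.trans (by gcongr)⟩⟩,
    P, Q, ⟨hP, supp_mono sP (by linarith) (by linarith), fun x => (hb x).2.2.1.trans ?_⟩,
    ⟨hQ, supp_mono sQ (by linarith) (by linarith), fun x => (hb x).2.2.2.trans ?_⟩, heq⟩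
  · rw [e4]
    exact mul_le_mul_of_nonneg_left (by linarith) hK0
  · have : 0 ≤ 2 * (4 * (B : ℝ) + 4) * (e / t) := by positivity
    exact mul_le_mul_of_nonneg_left (by linarith) hK0

end H88P

open H88P in
theorem perf (hS : StepStmt) : PerfStmt := by
  obtain ⟨K, hK, hS⟩ := hS
  change Step K at hS
  obtain ⟨B, hB⟩ := exists_nat_ge (16 * K)
  have hB' : (960 : ℝ) ≤ B := by linarith
  have hB0 : (0 : ℝ) < B := by linarith
  have hK0 : 0 < K := by linarith
  set L : ℝ := 4 * B + 4 with hL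
  have hL0 : 0 < L := by positivity
  have c1 : 0 ≤ L * K ^ 2 := by positivity
  have c2 : 0 ≤ 4 * L * B * K := by positivity
  set K' : ℝ := 8 * (L * K ^ 2) + 128 * K + 4 * L * B * K with hK'
  refine ⟨K', by linarith, ?_⟩
  intro u α β s η a τ l M0 M1 r T ℓ hyp hℓ
  obtain ⟨g1, g2, g3, g4, g5, g6, g7, g8, g9, g10, g11, g12, g13, g14, g15, g16⟩ := hyp
  have hs : 0 < s := by linarith
  have hl : (0 : ℝ) < l := by
    have : 0 ≤ (β - α) / τ := div_nonneg (by linarith) g4.le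
    linarith
  have hlη : 0 < l * η := by positivity
  have hKτ : 128 * K * τ ≤ ℓ := le_trans (by gcongr; linarith) hℓ
  have h60 : 60 * τ ≤ K * τ := by gcongr
  have hℓ0 : 0 < ℓ := by nlinarith
  have hyp : Hyp K u α β s η a τ l M0 M1 r T :=
    ⟨g1, g2, g3, g4, g5, g6, g7, g8, g9, le_trans (by gcongr; linarith) g10, g11, g12, g13, g14,
      g15, g16⟩
  obtain ⟨P0, Q0, u1, hP0, hQ0, hu1, sP0, sQ0, su1, heq0, hb0⟩ :=
    hS u _ _ _ _ _ _ _ _ _ _ _ (β + ℓ) (ℓ / 8) hyp (by linarith) (by linarith)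
  set η1 : ℝ := K * l * η * (τ / s) ^ 3 with hη1
  have hη0 : 0 < η1 := by positivity
  have hη1' : η1 ≤ K * (l * η) := by
    have : (τ / s) ^ 3 ≤ 1 := pow_le_one₀ (by positivity) ((div_le_one hs).2 g5)
    calc η1 ≤ K * l * η * 1 := by rw [hη1]; gcongr
      _ = _ := by ring
  set X : ℝ := Om τ l M0 M1 r T with hX
  set Y : ℝ := l * η * τ ^ 2 / s ^ 3 with hY
  set Z : ℝ := τ / ℓ ^ 2 with hZ
  have hX0 : 0 ≤ X := by rw [hX, Om]; positivity
  have hY0 : 0 ≤ Y := by positivity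
  have hZ0 : 0 ≤ Z := by positivity
  have hYη : η1 / τ = K * Y := by rw [hη1, hY]; field_simp
  set h : ℕ → ℝ := fun n => ℓ / 2 ^ n with hh
  set t : ℕ → ℝ := fun n => τ / B ^ n with ht
  set e : ℕ → ℝ := fun n => η1 / (2 * B) ^ n with he
  have hpos : ∀ n, 0 < h n := fun n => by simp only [hh]; positivity
  have tpos : ∀ n, 0 < t n := fun n => by simp only [ht]; positivity
  have epos : ∀ n, 0 < e n := fun n => by simp only [he]; positivity
  have hsucc : ∀ n, h (n + 1) = h n / 2 := fun n => by simp only [hh]; field_simp; ring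
  have tsucc : ∀ n, t (n + 1) = t n / B := fun n => by simp only [ht]; field_simp; ring
  have esucc : ∀ n, e (n + 1) = e n / (2 * B) := fun n => by simp only [he]; field_simp; ring
  have hle : ∀ n, h n ≤ ℓ := fun n => div_le_self hℓ0.le (one_le_pow₀ (by norm_num))
  have ele : ∀ n, e n ≤ K * (l * η) := fun n =>
    (div_le_self hη0.le (one_le_pow₀ (by linarith))).trans hη1'
  have th : ∀ n, 60 * t n ≤ h n := fun n => by
    simp only [ht, hh]
    rw [← mul_div_assoc]
    have : (2 : ℝ) ^ n ≤ (B : ℝ) ^ n := pow_le_pow_left₀ (by norm_num) (by linarith) n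
    gcongr
    linarith
  have et : ∀ n, e n / t n = K * Y / 2 ^ n := fun n => by
    simp only [he, ht]
    rw [← hYη, mul_pow]; field_simp
  have tz : ∀ n, t n / h n ^ 2 ≤ Z / 2 ^ n := fun n => by
    have h8 : (8 : ℝ) ^ n ≤ (B : ℝ) ^ n := pow_le_pow_left₀ (by norm_num) (by linarith) n
    have : t n / h n ^ 2 = Z / 2 ^ n * (8 ^ n / B ^ n) := by
      simp only [ht, hh, hZ]
      rw [show (8 : ℝ) = 2 ^ 3 by norm_num, ← pow_mul, mul_comm 3 n, pow_mul]
      field_simp
    rw [this]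
    exact mul_le_of_le_one_right (by positivity) ((div_le_one (by positivity)).2 h8)
  set M : ℝ := K' * (X + Y + Z) with hM
  obtain ⟨v, hv0, hv⟩ := exists_chain
    (fun n w => Inv w (β + 2 * ℓ - h n) (t n) (e n))
    (fun n w w' => Rel w w' (β + 2 * ℓ - h n - h n / 4) (β + 2 * ℓ - h (n + 1) + h (n + 1) / 4)
      (M / 2 / 2 ^ (n + 1))) u1
    (by
      have e0 : β + 2 * ℓ - h 0 = β + ℓ := by simp only [hh]; ring
      have e1 : t 0 = τ := by simp [ht]
      have e2 : e 0 = η1 := by simp [he]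
      rw [e0, e1, e2]
      exact ⟨hu1, su1, fun x => ⟨(hb0 x).1, (hb0 x).2.1⟩⟩)
    (by
      intro n w hw
      have k1 : K * L * e n ≤ 1 := by
        calc K * L * e n ≤ K * L * (K * (l * η)) := by gcongr; exact ele n
          _ = L * K ^ 2 * (l * η) := by ring
          _ ≤ K' * (l * η) := by gcongr; linarith
          _ = K' * l * η := by ring
          _ ≤ 1 := g10
      have k2 : 4 * L * B * e n ≤ 1 := by
        calc 4 * L * B * e n ≤ 4 * L * B * (K * (l * η)) := by gcongr; exact ele n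
          _ = 4 * L * B * K * (l * η) := by ring
          _ ≤ K' * (l * η) := by gcongr; linarith
          _ = K' * l * η := by ring
          _ ≤ 1 := g10
      obtain ⟨w', hw1, P, Q, hP, hQ, heq⟩ := step1 hK hS hB (tpos n) (epos n) (th n) k1 k2 hw
      have hm : K * (2 * L * (e n / t n) + t n / h n ^ 2) ≤ M / 2 / 2 ^ (n + 1) := by
        have p : (0 : ℝ) < 2 ^ n := by positivity
        calc K * (2 * L * (e n / t n) + t n / h n ^ 2)
            ≤ K * (2 * L * (K * Y / 2 ^ n) + Z / 2 ^ n) := by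
              rw [et]; exact mul_le_mul_of_nonneg_left (by linarith [tz n]) hK0.le
          _ = (8 * (L * K ^ 2) * Y + 4 * K * Z) / 2 / 2 ^ (n + 1) := by field_simp; ring
          _ ≤ M / 2 / 2 ^ (n + 1) := by
            gcongr
            have q1 : 8 * (L * K ^ 2) * Y ≤ K' * Y := by gcongr; linarith
            have q2 : 4 * K * Z ≤ K' * Z := by gcongr; linarith
            have q3 : 0 ≤ K' * X := by positivity
            rw [hM]; linarith
      refine ⟨w', ?_, P, Q, ⟨hP.1, supp_mono hP.2.1 le_rfl ?_, fun x => (hP.2.2 x).trans hm⟩,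
        ⟨hQ.1, supp_mono hQ.2.1 le_rfl ?_, fun x => (hQ.2.2 x).trans hm⟩, heq⟩
      · rw [tsucc, esucc, hsucc]
        have : β + 2 * ℓ - h n / 2 = β + 2 * ℓ - h n + h n / 2 := by ring
        rw [this]; exact hw1
      · rw [hsucc]; linarith
      · rw [hsucc]; linarith)
  choose P Q hP hQ heq using fun n => (hv n).2
  have h0 : h 0 = ℓ := by simp [hh]
  have t0 : t 0 = τ := by simp [ht]
  have z64 : τ / (ℓ / 8) ^ 2 = 64 * Z := by rw [hZ]; field_simp; ring
  have m0 : K * (X + Y + 64 * Z) ≤ M / 2 / 2 ^ 0 := by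
    have q1 : 128 * K * (X + Y + Z) ≤ M := by rw [hM]; gcongr; linarith
    have q2 : 0 ≤ K * X := by positivity
    have q3 : 0 ≤ K * Y := by positivity
    simp only [pow_zero, div_one]
    linarith
  refine swindle (fun j => Nat.casesOn j u v) (fun j => Nat.casesOn j P0 P)
    (fun j => Nat.casesOn j Q0 Q) (fun j => Nat.casesOn j α fun n => β + 2 * ℓ - h n - t n)
    (fun j => Nat.casesOn j β fun n => β + 2 * ℓ - h n + 3 * t n)
    (fun j => Nat.casesOn j (α - ℓ) fun n => β + 2 * ℓ - h n - h n / 4)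
    (fun j => β + 2 * ℓ - h j + h j / 4) (α - ℓ) (β + 3 * ℓ) M ?_ ?_ ?_ ?_ ?_ ?_ ?_ ?_ ?_ ?_ ?_
  · rintro (_ | n)
    · exact g2
    · exact (hv n).1.2.1
  · rintro (_ | n)
    · exact g3
    · have := tpos n
      simp only; linarith
  · rintro (_ | n)
    · simp only [h0, t0, Nat.rec_zero]; linarith
    · have := th n
      have := th (n + 1)
      have := hsucc n
      have := hpos n
      simp only; linarith
  · rintro (_ | n)
    · refine ⟨hP0, supp_mono sP0 (by simp only [Nat.rec_zero]; linarith) (by simp only [h0]; linarith),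
        fun x => (hb0 x).2.2.1.trans ?_⟩
      rw [z64]; exact m0
    · exact hP n
  · rintro (_ | n)
    · refine ⟨hQ0, supp_mono sQ0 (by simp only [Nat.rec_zero]; linarith) (by simp only [h0]; linarith),
        fun x => (hb0 x).2.2.2.trans ?_⟩
      rw [z64]
      exact le_trans (mul_le_mul_of_nonneg_left (by linarith) hK0.le) m0
    · exact hQ n
  · rintro (_ | n)
    · simp only [Nat.rec_zero]; linarith
    · have := th n
      have := hpos n
      simp only; linarith
  · intro n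
    have := th n
    have := hpos n
    simp only; linarith
  · intro n
    have := hsucc n
    have := hpos n
    simp only; linarith
  · rintro (_ | n)
    · exact le_rfl
    · have := hle n
      simp only; linarith
  · intro n
    have := hpos n
    linarith
  · rintro (_ | n)
    · rw [← hv0] at heq0; exact heq0
    · exact heq n

end Pool.Agent.H113Z.Dist
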